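import Mathlib
import Pool.Agent.H16.IntVar

set_option autoImplicit false

namespace Pool.Agent.Results.MP_4ce577_al.No

open Pool.Agent.H16.IntVar

theorem result : ∃ (G : Type) (_ : Group G), Finite G ∧ (∃ (H : Type) (_ : Group H), IsIntegral' H G) ∧
    ∃ (K : Type) (_ : Group K), InVar (commutator K) G ∧
      ∀ (H : Type) [Group H], IsIntegral' H G → ¬ InVar K H :=
  main

end Pool.Agent.Results.MP_4ce577_al.No
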